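import Mathlib

open MeasureTheory Filter Topology Set
open scoped ENNReal NNReal

namespace UnifS

variable {α : Type*} [MeasurableSpace α] {μ : Measure α}

/-- A bounded measurable function acts on `L¹`. -/
lemma exists_functional (f : α → ℝ) (hf : Measurable f) (C : ℝ) (hC : 0 ≤ C)
    (hfC : ∀ s, |f s| ≤ C) :
    ∃ φ : StrongDual ℝ (Lp ℝ 1 μ), ‖φ‖ ≤ C ∧ ∀ g : Lp ℝ 1 μ, φ g = ∫ s, f s * g s ∂μ := by
  have hint : ∀ g : Lp ℝ 1 μ, Integrable (fun s => f s * g s) μ := by
    intro g
    have hg : Integrable g μ := L1.integrable_coeFn g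
    exact hg.bdd_mul hf.aestronglyMeasurable (Eventually.of_forall (fun s => by
      simpa [Real.norm_eq_abs] using hfC s))
  let L : Lp ℝ 1 μ →ₗ[ℝ] ℝ :=
    { toFun := fun g => ∫ s, f s * g s ∂μ
      map_add' := by
        intro g h
        rw [← integral_add (hint g) (hint h)]
        apply integral_congr_ae
        filter_upwards [Lp.coeFn_add g h] with s hs
        rw [hs]; simp [mul_add]
      map_smul' := by
        intro c g
        simp only [RingHom.id_apply, smul_eq_mul]
        rw [← integral_const_mul]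
        apply integral_congr_ae
        filter_upwards [Lp.coeFn_smul c g] with s hs
        rw [hs]; simp; ring }
  have hL : ∀ g, ‖L g‖ ≤ C * ‖g‖ := by
    intro g
    have h1 : ‖L g‖ ≤ ∫ s, C * ‖g s‖ ∂μ := by
      apply (norm_integral_le_integral_norm _).trans
      apply integral_mono (hint g).norm ((L1.integrable_coeFn g).norm.const_mul C)
      intro s
      simp only [norm_mul, Real.norm_eq_abs]
      exact mul_le_mul_of_nonneg_right (hfC s) (abs_nonneg _)
    rw [integral_const_mul, ← L1.norm_eq_integral_norm] at h1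
    exact h1
  exact ⟨L.mkContinuous C hL, L.mkContinuous_norm_le hC hL, fun g => rfl⟩

lemma indicatorConstLp_eq_smul {s : Set α} (hs : MeasurableSet s) (hμs : μ s ≠ ∞) (c : ℝ) :
    indicatorConstLp 1 hs hμs c = c • indicatorConstLp 1 hs hμs (1:ℝ) := by
  ext1
  filter_upwards [indicatorConstLp_coeFn (p := 1) (hs := hs) (hμs := hμs) (c := c),
    indicatorConstLp_coeFn (p := 1) (hs := hs) (hμs := hμs) (c := (1:ℝ)),
    Lp.coeFn_smul c (indicatorConstLp 1 hs hμs (1:ℝ))] with x h1 h2 h3
  rw [h1, h3, Pi.smul_apply, h2]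
  by_cases hx : x ∈ s <;> simp [hx]

/-- Two functionals that agree on indicators agree. -/
lemma ext_functional {φ ψ : StrongDual ℝ (Lp ℝ 1 μ)}
    (h : ∀ (s : Set α) (hs : MeasurableSet s) (hμs : μ s ≠ ∞),
      φ (indicatorConstLp 1 hs hμs (1:ℝ)) = ψ (indicatorConstLp 1 hs hμs (1:ℝ))) : φ = ψ := by
  ext g
  refine Lp.induction (p := 1) (by simp) (fun g => φ g = ψ g) ?_ ?_ ?_ g
  · intro c s hs hμs
    rw [Lp.simpleFunc.coe_indicatorConst, indicatorConstLp_eq_smul, map_smul, map_smul, h s hs hμs.ne]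
  · intro f g hf hg _ h1 h2
    rw [map_add, map_add, h1, h2]
  · exact isClosed_eq φ.continuous ψ.continuous

variable [IsFiniteMeasure μ]

/-- Every functional on `L¹(μ)` (`μ` finite) is represented by a bounded measurable function. -/
lemma exists_rep (φ : StrongDual ℝ (Lp ℝ 1 μ)) :
    ∃ f : α → ℝ, Measurable f ∧ (∀ s, |f s| ≤ ‖φ‖) ∧
      ∀ g : Lp ℝ 1 μ, φ g = ∫ s, f s * g s ∂μ := by
  classical
  let m : Set α → ℝ := fun s =>
    if h : MeasurableSet s then φ (indicatorConstLp 1 h (measure_ne_top μ s) (1:ℝ)) else 0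
  have hm_meas : ∀ s (h : MeasurableSet s),
      m s = φ (indicatorConstLp 1 h (measure_ne_top μ s) (1:ℝ)) := fun s h => dif_pos h
  have hm_non : ∀ s, ¬ MeasurableSet s → m s = 0 := fun s h => dif_neg h
  have hm_le : ∀ s, MeasurableSet s → |m s| ≤ ‖φ‖ * μ.real s := by
    intro s hs
    rw [hm_meas s hs]
    have h1 := φ.le_opNorm (indicatorConstLp 1 hs (measure_ne_top μ s) (1:ℝ))
    rw [norm_indicatorConstLp one_ne_zero ENNReal.one_ne_top] at h1
    simpa using h1
  let ν : Measure α := (‖φ‖₊ : ℝ≥0) • μ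
  have hν : ∀ s, ‖m s‖ₑ ≤ ν s := by
    intro s
    by_cases hs : MeasurableSet s
    · have h1 := hm_le s hs
      have h2 : ν s = ENNReal.ofReal (‖φ‖ * μ.real s) := by
        rw [ENNReal.ofReal_mul (norm_nonneg _), Measure.real, ENNReal.ofReal_toReal (measure_ne_top μ s)]
        simp only [ν, Measure.smul_apply]
        rw [ofReal_norm]
        rfl
      rw [h2, ← ofReal_norm]
      exact ENNReal.ofReal_le_ofReal h1
    · rw [hm_non s hs]; simp
  have hadd : ∀ s t, MeasurableSet s → MeasurableSet t → Disjoint s t → m (s ∪ t) = m s + m t := by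
    intro s t hs ht hst
    rw [hm_meas s hs, hm_meas t ht, hm_meas _ (hs.union ht), ← map_add]
    congr 1
    exact indicatorConstLp_disjoint_union hs ht _ _ hst 1
  let v : SignedMeasure α := VectorMeasure.of_additive_of_le_measure m hν hadd hm_non
  have hv : ∀ s, v s = m s := fun s => rfl
  have hac : v ≪ᵥ μ.toENNRealVectorMeasure := by
    apply VectorMeasure.AbsolutelyContinuous.mk
    intro s hs h0
    rw [Measure.toENNRealVectorMeasure_apply_measurable hs] at h0
    have h1 := hm_le s hs
    rw [Measure.real, h0] at h1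
    rw [hv]
    simpa using h1
  have hrn := SignedMeasure.withDensityᵥ_rnDeriv_eq v μ hac
  set f := v.rnDeriv μ with hf
  have hfm : Measurable f := SignedMeasure.measurable_rnDeriv v μ
  have hfi : Integrable f μ := SignedMeasure.integrable_rnDeriv v μ
  have hint : ∀ s, MeasurableSet s → m s = ∫ x in s, f x ∂μ := by
    intro s hs
    rw [← hv, ← hrn, withDensityᵥ_apply hfi hs]
  have hup : f ≤ᵐ[μ] fun _ => ‖φ‖ := by
    apply ae_le_of_forall_setIntegral_le hfi (integrable_const _)
    intro s hs _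
    rw [← hint s hs, setIntegral_const, smul_eq_mul, mul_comm]
    exact (le_abs_self _).trans (hm_le s hs)
  have hlo : (fun _ => -‖φ‖) ≤ᵐ[μ] f := by
    apply ae_le_of_forall_setIntegral_le (integrable_const _) hfi
    intro s hs _
    rw [← hint s hs, setIntegral_const, smul_eq_mul, mul_comm]
    have := (abs_le.mp (hm_le s hs)).1
    linarith
  let f' : α → ℝ := fun x => max (min (f x) ‖φ‖) (-‖φ‖)
  have hf'm : Measurable f' := (hfm.min measurable_const).max measurable_const
  have hf'b : ∀ s, |f' s| ≤ ‖φ‖ := by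
    intro s
    rw [abs_le]
    have := norm_nonneg φ
    exact ⟨le_max_right _ _, max_le (min_le_right _ _) (by linarith)⟩
  have hff' : f' =ᵐ[μ] f := by
    filter_upwards [hup, hlo] with x h1 h2
    simp only [f']
    rw [min_eq_left h1, max_eq_left h2]
  obtain ⟨ψ, _, hψ⟩ := exists_functional (μ := μ) f' hf'm ‖φ‖ (norm_nonneg _) hf'b
  have : φ = ψ := by
    apply ext_functional
    intro s hs hμs
    rw [hψ, ← hm_meas s hs, hint s hs]
    rw [← integral_indicator hs]
    apply integral_congr_ae
    filter_upwards [hff', indicatorConstLp_coeFn (p := 1) (hs := hs) (hμs := hμs) (c := (1:ℝ))]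
      with x h1 h2
    rw [h1, h2]
    by_cases hx : x ∈ s <;> simp [hx]
  exact ⟨f', hf'm, hf'b, fun g => by rw [this, hψ]⟩

end UnifS
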