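import Mathlib
import Pool.Agent.UnifS.Rep

open MeasureTheory Filter Topology Set
open scoped ENNReal NNReal

namespace UnifS

variable {α : Type*} [MeasurableSpace α] {μ : Measure α} [IsFiniteMeasure μ]

/-- `f` represents the functional `φ`. -/
structure Repr (φ : StrongDual ℝ (Lp ℝ 1 μ)) (f : α → ℝ) : Prop where
  meas : Measurable f
  bdd : ∃ C, ∀ s, |f s| ≤ C
  eq : ∀ g : Lp ℝ 1 μ, φ g = ∫ s, f s * g s ∂μ

lemma Repr.ae_eq {φ : StrongDual ℝ (Lp ℝ 1 μ)} {f f' : α → ℝ} (h : Repr φ f) (h' : Repr φ f') :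
    f =ᵐ[μ] f' := by
  have hint : ∀ {f : α → ℝ}, Repr φ f → Integrable f μ := by
    intro f h
    obtain ⟨C, hC⟩ := h.bdd
    exact Integrable.of_bound h.meas.aestronglyMeasurable C
      (Eventually.of_forall (fun s => by simpa [Real.norm_eq_abs] using hC s))
  have key : ∀ {f : α → ℝ}, Repr φ f → ∀ s (hs : MeasurableSet s),
      ∫ x in s, f x ∂μ = φ (indicatorConstLp 1 hs (measure_ne_top μ s) (1:ℝ)) := by
    intro f h s hs
    rw [h.eq, ← integral_indicator hs]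
    apply integral_congr_ae
    filter_upwards [indicatorConstLp_coeFn (p := 1) (hs := hs) (hμs := measure_ne_top μ s)
      (c := (1:ℝ))] with x h2
    rw [h2]
    by_cases hx : x ∈ s <;> simp [hx]
  apply (hint h).ae_eq_of_forall_setIntegral_eq _ _ (hint h')
  intro s hs _
  rw [key h s hs, key h' s hs]

omit [IsFiniteMeasure μ] in
lemma Repr.add {φ ψ : StrongDual ℝ (Lp ℝ 1 μ)} {f g : α → ℝ} (h : Repr φ f) (h' : Repr ψ g) :
    Repr (φ + ψ) (fun x => f x + g x) := by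
  obtain ⟨C, hC⟩ := h.bdd
  obtain ⟨D, hD⟩ := h'.bdd
  refine ⟨h.meas.add h'.meas, ⟨C + D, fun s => (abs_add_le _ _).trans (add_le_add (hC s) (hD s))⟩, ?_⟩
  intro k
  have hk : Integrable k μ := L1.integrable_coeFn k
  have h1 : Integrable (fun s => f s * k s) μ :=
    hk.bdd_mul h.meas.aestronglyMeasurable (Eventually.of_forall (fun s => by
      simpa [Real.norm_eq_abs] using hC s))
  have h2 : Integrable (fun s => g s * k s) μ :=
    hk.bdd_mul h'.meas.aestronglyMeasurable (Eventually.of_forall (fun s => by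
      simpa [Real.norm_eq_abs] using hD s))
  rw [_root_.add_apply, h.eq, h'.eq, ← integral_add h1 h2]
  simp only [add_mul]

omit [IsFiniteMeasure μ] in
lemma Repr.smul {φ : StrongDual ℝ (Lp ℝ 1 μ)} {f : α → ℝ} (h : Repr φ f) (c : ℝ) :
    Repr (c • φ) (fun x => c * f x) := by
  obtain ⟨C, hC⟩ := h.bdd
  refine ⟨h.meas.const_mul c, ⟨|c| * C, fun s => ?_⟩, ?_⟩
  · rw [abs_mul]; exact mul_le_mul_of_nonneg_left (hC s) (abs_nonneg _)
  intro k
  rw [_root_.smul_apply, h.eq, smul_eq_mul, ← integral_const_mul]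
  simp only [mul_assoc]

lemma exists_repr (φ : StrongDual ℝ (Lp ℝ 1 μ)) :
    ∃ f : α → ℝ, Repr φ f ∧ ∀ s, |f s| ≤ ‖φ‖ := by
  obtain ⟨f, h1, h2, h3⟩ := exists_rep φ
  exact ⟨f, ⟨h1, ⟨_, h2⟩, h3⟩, h2⟩

/-- Evaluation of an `L^∞` function at an ultrafilter finer than the a.e. filter. -/
lemma exists_char (U : Ultrafilter α) (hU : (U : Filter α) ≤ ae μ) :
    ∃ Φ : StrongDual ℝ (StrongDual ℝ (Lp ℝ 1 μ)), ‖Φ‖ ≤ 1 ∧
      ∀ (φ : StrongDual ℝ (Lp ℝ 1 μ)) (f : α → ℝ), Repr φ f → Tendsto f U (𝓝 (Φ φ)) := by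
  classical
  have hlim : ∀ φ : StrongDual ℝ (Lp ℝ 1 μ), ∃ c : ℝ, |c| ≤ ‖φ‖ ∧
      ∀ f : α → ℝ, Repr φ f → Tendsto f U (𝓝 c) := by
    intro φ
    obtain ⟨f, hf, hfb⟩ := exists_repr φ
    have hc : IsCompact (Icc (-‖φ‖) ‖φ‖) := isCompact_Icc
    obtain ⟨c, hcm, hc⟩ := hc.ultrafilter_le_nhds (U.map f) (by
      rw [Filter.le_principal_iff]
      apply Filter.mem_map.mpr
      apply Filter.univ_mem'
      intro s
      exact abs_le.mp (hfb s))
    refine ⟨c, abs_le.mpr hcm, ?_⟩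
    intro f' hf'
    have h1 : Tendsto f U (𝓝 c) := hc
    exact h1.congr' (hU (hf.ae_eq hf'))
  choose c hc1 hc2 using hlim
  let L : StrongDual ℝ (Lp ℝ 1 μ) →ₗ[ℝ] ℝ :=
    { toFun := c
      map_add' := by
        intro φ ψ
        obtain ⟨f, hf, -⟩ := exists_repr φ
        obtain ⟨g, hg, -⟩ := exists_repr ψ
        exact tendsto_nhds_unique (hc2 _ _ (hf.add hg)) ((hc2 _ _ hf).add (hc2 _ _ hg))
      map_smul' := by
        intro a φ
        obtain ⟨f, hf, -⟩ := exists_repr φ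
        exact tendsto_nhds_unique (hc2 _ _ (hf.smul a)) ((hc2 _ _ hf).const_mul a) }
  refine ⟨L.mkContinuous 1 (fun φ => ?_), L.mkContinuous_norm_le zero_le_one _, ?_⟩
  · rw [one_mul, Real.norm_eq_abs]; exact hc1 φ
  · intro φ f hf
    exact hc2 φ f hf

end UnifS
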