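import Mathlib
import Pool.Agent.UnifS.Char

open MeasureTheory Filter Topology Set
open scoped ENNReal NNReal

namespace UnifS

section Abstract

variable {Y : Type*} [NormedAddCommGroup Y] [NormedSpace ℝ Y]

/-- The key estimate, in an abstract form. -/
lemma abs_key_le {Φ₁ Φ₂ : StrongDual ℝ Y} (hn1 : ‖Φ₁‖ ≤ 1) (hn2 : ‖Φ₂‖ ≤ 1)
    (H : ∀ φ : Y, ‖φ‖ ≤ 1 → ∀ ε : ℝ, 0 < ε → ∃ φ' : Y, ‖φ'‖ ≤ 1 ∧
      Φ₁ φ' = 1 ∧ Φ₂ φ' = 1 ∧ ‖φ' - φ‖ ≤ (1 - Φ₁ φ) + (1 - Φ₂ φ) + ε)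
    (z : StrongDual ℝ Y) (a b a' b' : ℝ)
    (ha : ‖z‖ ≤ a) (hb : ‖z‖ ≤ b) (hab : a + b = a' + b') :
    ‖a • Φ₁ + b • Φ₂ + z‖ ≤ ‖a' • Φ₁ + b' • Φ₂ + z‖ := by
  set M := ‖a' • Φ₁ + b' • Φ₂ + z‖ with hM
  have hMnn : 0 ≤ M := norm_nonneg _
  -- the one-sided estimate on the unit ball
  have key : ∀ φ : Y, ‖φ‖ ≤ 1 → (a • Φ₁ + b • Φ₂ + z) φ ≤ M := by
    intro φ hφ
    have hle : ∀ {Φ : StrongDual ℝ Y}, ‖Φ‖ ≤ 1 → Φ φ ≤ 1 := by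
      intro Φ hΦ
      calc Φ φ ≤ |Φ φ| := le_abs_self _
        _ ≤ ‖Φ‖ * ‖φ‖ := Φ.le_opNorm φ
        _ ≤ 1 * 1 := mul_le_mul hΦ hφ (norm_nonneg _) zero_le_one
        _ = 1 := one_mul 1
    have hc1le := hle hn1
    have hc2le := hle hn2
    set c₁ := Φ₁ φ with hc₁
    set c₂ := Φ₂ φ with hc₂
    have hznn := norm_nonneg z
    have hval : (a • Φ₁ + b • Φ₂ + z) φ = a * c₁ + b * c₂ + z φ := by
      simp [hc₁, hc₂]
    rw [hval]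
    -- for every ε
    have heps : ∀ ε : ℝ, 0 < ε → a * c₁ + b * c₂ + z φ ≤ M + ε * ‖z‖ := by
      intro ε hε
      obtain ⟨φ', hφ'n, hΦ1, hΦ2, hδn⟩ := H φ hφ ε hε
      have hz1 : z φ' - z φ = z (φ' - φ) := by
        rw [map_sub]
      have hz2 : |z (φ' - φ)| ≤ ‖z‖ * ((1 - c₁) + (1 - c₂) + ε) := by
        have := z.le_opNorm (φ' - φ)
        rw [Real.norm_eq_abs] at this
        exact this.trans (mul_le_mul_of_nonneg_left hδn hznn)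
      have hz3 : z φ ≤ z φ' + ‖z‖ * ((1 - c₁) + (1 - c₂) + ε) := by
        have := (abs_le.mp hz2).1
        rw [← hz1] at this
        linarith
      have hT' : a' + b' + z φ' ≤ M := by
        have e1 : (a' • Φ₁ + b' • Φ₂ + z) φ' = a' + b' + z φ' := by
          simp [hΦ1, hΦ2]
        rw [← e1]
        have := (a' • Φ₁ + b' • Φ₂ + z).le_opNorm φ'
        rw [Real.norm_eq_abs] at this
        calc (a' • Φ₁ + b' • Φ₂ + z) φ' ≤ |(a' • Φ₁ + b' • Φ₂ + z) φ'| := le_abs_self _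
          _ ≤ M * ‖φ'‖ := this
          _ ≤ M * 1 := mul_le_mul_of_nonneg_left hφ'n hMnn
          _ = M := mul_one _
      have e2 : (‖z‖ - a) * (1 - c₁) ≤ 0 :=
        mul_nonpos_of_nonpos_of_nonneg (by linarith) (by linarith)
      have e3 : (‖z‖ - b) * (1 - c₂) ≤ 0 :=
        mul_nonpos_of_nonpos_of_nonneg (by linarith) (by linarith)
      nlinarith
    by_contra hcon
    push Not at hcon
    set D := a * c₁ + b * c₂ + z φ - M with hD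
    have hDpos : 0 < D := by linarith
    have h3 := heps (D / (2 * (‖z‖ + 1))) (by positivity)
    have h4 : D / (2 * (‖z‖ + 1)) * ‖z‖ ≤ D / 2 := by
      rw [div_mul_eq_mul_div, div_le_div_iff₀ (by positivity) (by norm_num)]
      nlinarith
    linarith
  apply ContinuousLinearMap.opNorm_le_of_unit_norm hMnn
  intro φ hφ
  rw [Real.norm_eq_abs, abs_le]
  constructor
  · have := key (-φ) (by rw [norm_neg, hφ])
    rw [map_neg] at this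
    linarith
  · exact key φ hφ.le

lemma abs_pair {Φ₁ Φ₂ : StrongDual ℝ Y} (hn1 : ‖Φ₁‖ ≤ 1) (hn2 : ‖Φ₂‖ ≤ 1)
    (H : ∀ φ : Y, ‖φ‖ ≤ 1 → ∀ ε : ℝ, 0 < ε → ∃ φ' : Y, ‖φ'‖ ≤ 1 ∧
      Φ₁ φ' = 1 ∧ Φ₂ φ' = 1 ∧ ‖φ' - φ‖ ≤ (1 - Φ₁ φ) + (1 - Φ₂ φ) + ε)
    {e σ : Y} (hen : ‖e‖ ≤ 1) (he1 : Φ₁ e = 1) (he2 : Φ₂ e = 1)
    (hσn : ‖σ‖ ≤ 1) (hσ1 : Φ₁ σ = 1) (hσ2 : Φ₂ σ = -1) :
    ∃ x y : StrongDual ℝ Y, ‖x‖ = 1 ∧ ‖y‖ = 1 ∧ ‖x - y‖ = 1 ∧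
      ∀ z, ‖z‖ ≤ 1 / 4 → ‖x + z‖ = ‖y + z‖ := by
  have hnorm : ∀ a b : ℝ, 0 ≤ a → 0 ≤ b → a + b = 1 → ‖a • Φ₁ + b • Φ₂‖ = 1 := by
    intro a b ha hb hab
    apply le_antisymm
    · calc ‖a • Φ₁ + b • Φ₂‖ ≤ ‖a • Φ₁‖ + ‖b • Φ₂‖ := norm_add_le _ _
        _ = a * ‖Φ₁‖ + b * ‖Φ₂‖ := by
            rw [norm_smul, norm_smul, Real.norm_of_nonneg ha, Real.norm_of_nonneg hb]
        _ ≤ a * 1 + b * 1 := by gcongr
        _ = 1 := by linarith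
    · have h3 : (a • Φ₁ + b • Φ₂) e = 1 := by simp [he1, he2, hab]
      have h4 := (a • Φ₁ + b • Φ₂).le_opNorm e
      rw [h3, norm_one] at h4
      calc (1:ℝ) ≤ ‖a • Φ₁ + b • Φ₂‖ * ‖e‖ := h4
        _ ≤ ‖a • Φ₁ + b • Φ₂‖ * 1 := mul_le_mul_of_nonneg_left hen (norm_nonneg _)
        _ = _ := mul_one _
  refine ⟨(3/4 : ℝ) • Φ₁ + (1/4 : ℝ) • Φ₂, (1/4 : ℝ) • Φ₁ + (3/4 : ℝ) • Φ₂,
    hnorm _ _ (by norm_num) (by norm_num) (by norm_num),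
    hnorm _ _ (by norm_num) (by norm_num) (by norm_num), ?_, ?_⟩
  · have e1 : (3/4 : ℝ) • Φ₁ + (1/4 : ℝ) • Φ₂ - ((1/4 : ℝ) • Φ₁ + (3/4 : ℝ) • Φ₂)
        = (1/2 : ℝ) • (Φ₁ - Φ₂) := by
      module
    rw [e1]
    apply le_antisymm
    · rw [norm_smul, Real.norm_of_nonneg (by norm_num)]
      have := norm_sub_le Φ₁ Φ₂
      linarith
    · have h3 : ((1/2 : ℝ) • (Φ₁ - Φ₂)) σ = 1 := by
        simp [hσ1, hσ2]; norm_num
      have h4 := ((1/2 : ℝ) • (Φ₁ - Φ₂)).le_opNorm σ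
      rw [h3, norm_one] at h4
      calc (1:ℝ) ≤ ‖(1/2 : ℝ) • (Φ₁ - Φ₂)‖ * ‖σ‖ := h4
        _ ≤ ‖(1/2 : ℝ) • (Φ₁ - Φ₂)‖ * 1 := mul_le_mul_of_nonneg_left hσn (norm_nonneg _)
        _ = _ := mul_one _
  · intro z hz
    have hz' : ‖z‖ ≤ 3 / 4 := hz.trans (by norm_num)
    apply le_antisymm
    · exact abs_key_le hn1 hn2 H z _ _ _ _ hz' hz (by norm_num)
    · exact abs_key_le hn1 hn2 H z _ _ _ _ hz hz' (by norm_num)

end Abstract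

variable {α : Type*} [MeasurableSpace α] {μ : Measure α}

lemma Repr.norm_le {φ : StrongDual ℝ (Lp ℝ 1 μ)} {f : α → ℝ} (h : Repr φ f) {C : ℝ} (hC : 0 ≤ C)
    (hfC : ∀ s, |f s| ≤ C) : ‖φ‖ ≤ C := by
  obtain ⟨ψ, hψ, hψ'⟩ := exists_functional (μ := μ) f h.meas C hC hfC
  have : φ = ψ := by
    ext g
    rw [h.eq, hψ']
  rw [this]; exact hψ

lemma exists_of_bdd (f : α → ℝ) (hf : Measurable f) (C : ℝ) (hC : 0 ≤ C) (hfC : ∀ s, |f s| ≤ C) :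
    ∃ φ : StrongDual ℝ (Lp ℝ 1 μ), Repr φ f ∧ ‖φ‖ ≤ C := by
  obtain ⟨ψ, hψ, hψ'⟩ := exists_functional (μ := μ) f hf C hC hfC
  exact ⟨ψ, ⟨hf, ⟨C, hfC⟩, hψ'⟩, hψ⟩

variable [IsFiniteMeasure μ]

/-- The approximation property of characters of `L^∞`. -/
lemma char_approx {A : Set α} (hA : MeasurableSet A) {U₁ U₂ : Ultrafilter α}
    (hA1 : A ∈ U₁) (hA2 : Aᶜ ∈ U₂)
    {Φ₁ Φ₂ : StrongDual ℝ (StrongDual ℝ (Lp ℝ 1 μ))}
    (h1 : ∀ (φ : StrongDual ℝ (Lp ℝ 1 μ)) (f : α → ℝ), Repr φ f → Tendsto f U₁ (𝓝 (Φ₁ φ)))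
    (h2 : ∀ (φ : StrongDual ℝ (Lp ℝ 1 μ)) (f : α → ℝ), Repr φ f → Tendsto f U₂ (𝓝 (Φ₂ φ)))
    (φ : StrongDual ℝ (Lp ℝ 1 μ)) (hφ : ‖φ‖ ≤ 1) (ε : ℝ) (hε : 0 < ε) :
    ∃ φ' : StrongDual ℝ (Lp ℝ 1 μ), ‖φ'‖ ≤ 1 ∧
      Φ₁ φ' = 1 ∧ Φ₂ φ' = 1 ∧ ‖φ' - φ‖ ≤ (1 - Φ₁ φ) + (1 - Φ₂ φ) + ε := by
  classical
  obtain ⟨f, hf, hfb⟩ := exists_repr φ
  have hf1 : ∀ s, |f s| ≤ 1 := fun s => (hfb s).trans hφ
  have ht1 := h1 φ f hf
  have ht2 := h2 φ f hf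
  set c₁ := Φ₁ φ with hc₁
  set c₂ := Φ₂ φ with hc₂
  have hc1le : c₁ ≤ 1 := le_of_tendsto ht1 (Eventually.of_forall (fun s => (abs_le.mp (hf1 s)).2))
  have hc2le : c₂ ≤ 1 := le_of_tendsto ht2 (Eventually.of_forall (fun s => (abs_le.mp (hf1 s)).2))
  let A₁ : Set α := A ∩ {s | c₁ - ε < f s}
  let A₂ : Set α := Aᶜ ∩ {s | c₂ - ε < f s}
  have hA₁m : MeasurableSet A₁ := hA.inter (measurableSet_lt measurable_const hf.meas)
  have hA₂m : MeasurableSet A₂ := hA.compl.inter (measurableSet_lt measurable_const hf.meas)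
  have hA₁U : A₁ ∈ U₁ := Filter.inter_mem hA1 (ht1 (Ioi_mem_nhds (by linarith)))
  have hA₂U : A₂ ∈ U₂ := Filter.inter_mem hA2 (ht2 (Ioi_mem_nhds (by linarith)))
  let f' : α → ℝ := fun s => if s ∈ A₁ ∪ A₂ then 1 else f s
  have hf'm : Measurable f' := Measurable.ite (hA₁m.union hA₂m) measurable_const hf.meas
  have hf'b : ∀ s, |f' s| ≤ 1 := by
    intro s
    simp only [f']
    split_ifs
    · simp
    · exact hf1 s
  obtain ⟨φ', hφ', hφ'n⟩ := exists_of_bdd (μ := μ) f' hf'm 1 zero_le_one hf'b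
  refine ⟨φ', hφ'n, ?_, ?_, ?_⟩
  · refine tendsto_nhds_unique (h1 φ' f' hφ') ?_
    refine Tendsto.congr' ?_ tendsto_const_nhds
    filter_upwards [hA₁U] with s hs
    have : s ∈ A₁ ∪ A₂ := Or.inl hs
    simp only [f', if_pos this]
  · refine tendsto_nhds_unique (h2 φ' f' hφ') ?_
    refine Tendsto.congr' ?_ tendsto_const_nhds
    filter_upwards [hA₂U] with s hs
    have : s ∈ A₁ ∪ A₂ := Or.inr hs
    simp only [f', if_pos this]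
  -- the difference
  · have hδ : Repr (φ' + (-1 : ℝ) • φ) (fun s => f' s + (-1) * f s) := hφ'.add (hf.smul (-1))
    have heq : φ' - φ = φ' + (-1 : ℝ) • φ := by
      ext g; simp; ring
    rw [heq]
    apply hδ.norm_le (by linarith)
    intro s
    simp only [f']
    by_cases hs : s ∈ A₁ ∪ A₂
    · rw [if_pos hs]
      have hs1 := abs_le.mp (hf1 s)
      rw [abs_le]
      rcases hs with hs | hs
      · have h3 : c₁ - ε < f s := hs.2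
        constructor <;> linarith
      · have h3 : c₂ - ε < f s := hs.2
        constructor <;> linarith
    · rw [if_neg hs]
      have : f s + -1 * f s = 0 := by ring
      rw [this, abs_zero]
      linarith

/-- Two characters carried by complementary sets produce a pair on which property (S) fails. -/
lemma bidual_pair {A : Set α} (hA : MeasurableSet A) (hA0 : μ A ≠ 0) (hAc0 : μ Aᶜ ≠ 0) :
    ∃ x y : StrongDual ℝ (StrongDual ℝ (Lp ℝ 1 μ)), ‖x‖ = 1 ∧ ‖y‖ = 1 ∧ ‖x - y‖ = 1 ∧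
      ∀ z, ‖z‖ ≤ 1 / 4 → ‖x + z‖ = ‖y + z‖ := by
  classical
  have hne1 : (ae μ ⊓ 𝓟 A).NeBot := by
    rw [← ae_restrict_eq hA]
    exact ae_restrict_neBot.mpr hA0
  have hne2 : (ae μ ⊓ 𝓟 Aᶜ).NeBot := by
    rw [← ae_restrict_eq hA.compl]
    exact ae_restrict_neBot.mpr hAc0
  let U₁ : Ultrafilter α := Ultrafilter.of (ae μ ⊓ 𝓟 A)
  let U₂ : Ultrafilter α := Ultrafilter.of (ae μ ⊓ 𝓟 Aᶜ)
  have hU1 : (U₁ : Filter α) ≤ ae μ := (Ultrafilter.of_le _).trans inf_le_left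
  have hU2 : (U₂ : Filter α) ≤ ae μ := (Ultrafilter.of_le _).trans inf_le_left
  have hA1 : A ∈ U₁ := (Ultrafilter.of_le (ae μ ⊓ 𝓟 A)) (mem_inf_of_right (mem_principal_self A))
  have hA2 : Aᶜ ∈ U₂ :=
    (Ultrafilter.of_le (ae μ ⊓ 𝓟 Aᶜ)) (mem_inf_of_right (mem_principal_self Aᶜ))
  obtain ⟨Φ₁, hn1, h1⟩ := exists_char U₁ hU1
  obtain ⟨Φ₂, hn2, h2⟩ := exists_char U₂ hU2
  -- the constant functional
  obtain ⟨e, he, hen⟩ := exists_of_bdd (μ := μ) (fun _ => (1:ℝ)) measurable_const 1 zero_le_one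
    (fun s => by simp)
  have he1 : Φ₁ e = 1 := tendsto_nhds_unique (h1 e _ he) tendsto_const_nhds
  have he2 : Φ₂ e = 1 := tendsto_nhds_unique (h2 e _ he) tendsto_const_nhds
  -- the sign functional
  obtain ⟨σ, hσ, hσn⟩ := exists_of_bdd (μ := μ) (fun s => if s ∈ A then (1:ℝ) else -1)
    (Measurable.ite hA measurable_const measurable_const) 1 zero_le_one
    (fun s => by split_ifs <;> simp)
  have hσ1 : Φ₁ σ = 1 := by
    refine tendsto_nhds_unique (h1 σ _ hσ) ?_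
    refine Tendsto.congr' ?_ tendsto_const_nhds
    filter_upwards [hA1] with s hs
    rw [if_pos hs]
  have hσ2 : Φ₂ σ = -1 := by
    refine tendsto_nhds_unique (h2 σ _ hσ) ?_
    refine Tendsto.congr' ?_ tendsto_const_nhds
    filter_upwards [hA2] with s hs
    rw [if_neg hs]
  exact abs_pair hn1 hn2 (fun φ hφ ε hε => char_approx hA hA1 hA2 h1 h2 φ hφ ε hε)
    hen he1 he2 hσn hσ1 hσ2

end UnifS
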