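import Mathlib

/-!
Definitions for the problem on uniform property (S) and the bidual.
-/

open scoped ENNReal

namespace UnifS

/-- `U_X(x,y;a) = sup { | ‖x+z‖ - ‖y+z‖ | : ‖z‖ ≤ a }`, as an extended nonnegative real. -/
noncomputable def modPair {X : Type*} [NormedAddCommGroup X] (x y : X) (a : ℝ) : ℝ≥0∞ :=
  ⨆ (z : X) (_ : ‖z‖ ≤ a), ENNReal.ofReal |‖x + z‖ - ‖y + z‖|

/-- `U_X(d;a) = inf { U_X(x,y;a) : ‖x‖ = ‖y‖ = 1, ‖x-y‖ ≥ d }` (infimum in `[0,∞]`). -/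
noncomputable def modulus (X : Type*) [NormedAddCommGroup X] (d a : ℝ) : ℝ≥0∞ :=
  ⨅ (x : X) (y : X) (_ : ‖x‖ = 1) (_ : ‖y‖ = 1) (_ : d ≤ ‖x - y‖), modPair x y a

/-- Uniform property (S): `U_X(d;a) > 0` for all `0 < d < 2` and all `a > 0`. -/
def UniformPropertyS (X : Type*) [NormedAddCommGroup X] : Prop :=
  ∀ d a : ℝ, 0 < d → d < 2 → 0 < a → 0 < modulus X d a

end UnifS
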