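import Mathlib

open MeasureTheory Filter Topology Set
open scoped ENNReal NNReal

namespace UnifS

/-- Lebesgue measure on `[0,1]`. -/
noncomputable abbrev lam : Measure ℝ := volume.restrict (Icc (0:ℝ) 1)

lemma lam_compl : lam (Ioc (0:ℝ) 1)ᶜ = 0 := by
  have h1 : lam (Icc (0:ℝ) 1)ᶜ = 0 := by
    rw [lam, Measure.restrict_apply measurableSet_Icc.compl]
    simp
  have h2 : (Ioc (0:ℝ) 1)ᶜ ⊆ (Icc (0:ℝ) 1)ᶜ ∪ {0} := by
    intro t ht
    by_cases h0 : t = 0
    · right; exact h0
    · left
      intro ht'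
      exact ht ⟨lt_of_le_of_ne ht'.1 (Ne.symm h0), ht'.2⟩
  have h3 : lam ({0} : Set ℝ) = 0 := measure_singleton _
  exact le_antisymm ((measure_mono h2).trans ((measure_union_le _ _).trans (by rw [h1, h3, add_zero])))
    (zero_le)

lemma integral_zero_one (f : ℝ → ℝ) : ∫ s in (0:ℝ)..1, f s ∂lam = ∫ s, f s ∂lam := by
  rw [intervalIntegral.integral_of_le zero_le_one]
  rw [setIntegral_eq_integral_of_ae_compl_eq_zero]
  have h := measure_eq_zero_iff_ae_notMem.mp lam_compl
  filter_upwards [h] with s hs hs'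
  exact absurd hs' hs

/-- Splitting lemma: there is an interval carrying little of `f` but a fair share of `h`. -/
lemma exists_interval (f h : ℝ → ℝ) (hf : Integrable f lam) (hh : Integrable h lam)
    (hf0 : ∀ s, 0 ≤ f s) (hf1 : ∫ s, f s ∂lam = 1) (N : ℕ) (hN : 0 < N) :
    ∃ s t : ℝ, s ≤ t ∧ ∫ u in Ioc s t, f u ∂lam = 1 / N ∧
      (∫ u, h u ∂lam) / N ≤ ∫ u in Ioc s t, h u ∂lam := by
  have hNpos : (0:ℝ) < N := by exact_mod_cast hN
  have hfi : ∀ a b, IntervalIntegrable f lam a b := fun a b => hf.intervalIntegrable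
  have hhi : ∀ a b, IntervalIntegrable h lam a b := fun a b => hh.intervalIntegrable
  let F : ℝ → ℝ := fun t => ∫ u in (0:ℝ)..t, f u ∂lam
  let G : ℝ → ℝ := fun t => ∫ u in (0:ℝ)..t, h u ∂lam
  have hFc : Continuous F := intervalIntegral.continuous_primitive hfi 0
  have hF0 : F 0 = 0 := intervalIntegral.integral_same
  have hG0 : G 0 = 0 := intervalIntegral.integral_same
  have hF1 : F 1 = 1 := by
    show ∫ u in (0:ℝ)..1, f u ∂lam = 1
    rw [integral_zero_one, hf1]
  have hG1 : G 1 = ∫ u, h u ∂lam := integral_zero_one h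
  have hFsub : ∀ s t, F t - F s = ∫ u in s..t, f u ∂lam := fun s t =>
    intervalIntegral.integral_interval_sub_left (hfi 0 t) (hfi 0 s)
  have hGsub : ∀ s t, G t - G s = ∫ u in s..t, h u ∂lam := fun s t =>
    intervalIntegral.integral_interval_sub_left (hhi 0 t) (hhi 0 s)
  have hFmono : ∀ s t, s ≤ t → F s ≤ F t := by
    intro s t hst
    have h1 : 0 ≤ F t - F s := by
      rw [hFsub]
      exact intervalIntegral.integral_nonneg_of_forall hst hf0
    linarith
  have hT : ∀ i : ℕ, i ≤ N → ∃ t : ℝ, F t = i / N ∧ (i = 0 → t = 0) ∧ (i = N → t = 1) := by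
    intro i hi
    by_cases h0 : i = 0
    · refine ⟨0, by rw [hF0, h0]; simp, fun _ => rfl, fun h => ?_⟩
      omega
    by_cases h1 : i = N
    · refine ⟨1, by rw [hF1, h1]; field_simp, fun h => absurd h h0, fun _ => rfl⟩
    have hiv : (i : ℝ) / N ∈ Icc (F 0) (F 1) := by
      rw [hF0, hF1]
      refine ⟨by positivity, ?_⟩
      rw [div_le_one hNpos]
      exact_mod_cast hi
    obtain ⟨t, -, ht⟩ := intermediate_value_Icc (zero_le_one) hFc.continuousOn hiv
    exact ⟨t, ht, fun h => absurd h h0, fun h => absurd h h1⟩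
  choose! T hT1 hT2 hT3 using hT
  have hsum : ∑ i ∈ Finset.range N, (G (T (i+1)) - G (T i)) = G 1 := by
    rw [Finset.sum_range_sub (fun i => G (T i)), hT3 N le_rfl rfl, hT2 0 (Nat.zero_le _) rfl, hG0,
      sub_zero]
  have hex : ∃ i ∈ Finset.range N, G 1 / N ≤ G (T (i+1)) - G (T i) := by
    apply Finset.exists_le_of_sum_le (Finset.nonempty_range_iff.mpr hN.ne')
    rw [hsum, Finset.sum_const, Finset.card_range, nsmul_eq_mul]
    field_simp
    exact le_rfl
  obtain ⟨i, hi, hi2⟩ := hex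
  have hi' : i < N := Finset.mem_range.mp hi
  have hdiff : F (T (i+1)) - F (T i) = 1 / N := by
    rw [hT1 (i+1) hi', hT1 i hi'.le]
    push_cast
    field_simp
    ring
  have hlt : T i ≤ T (i+1) := by
    by_contra hcon
    push Not at hcon
    have := hFmono _ _ hcon.le
    have h2 : (0:ℝ) < 1 / N := by positivity
    linarith
  refine ⟨T i, T (i+1), hlt, ?_, ?_⟩
  · rw [← intervalIntegral.integral_of_le hlt, ← hFsub, hdiff]
  · rw [← intervalIntegral.integral_of_le hlt, ← hGsub, ← hG1]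
    exact hi2

/-- The basic estimate for `L¹[0,1]`. -/
lemma LOne_estimate (x y : Lp ℝ 1 lam) (hx : ‖x‖ = 1) (hy : ‖y‖ = 1) (N : ℕ) (hN : 0 < N) :
    ∃ z : Lp ℝ 1 lam, ‖z‖ = 1 / N ∧ ‖x - y‖ / N ≤ ‖y + z‖ - ‖x + z‖ := by
  have hxi : Integrable x lam := L1.integrable_coeFn x
  have hyi : Integrable y lam := L1.integrable_coeFn y
  have hxa : Integrable (fun s => |x s|) lam := hxi.abs
  have hya : Integrable (fun s => |y s|) lam := hyi.abs
  have hxya : Integrable (fun s => |x s - y s|) lam := (hxi.sub hyi).abs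
  have hnx : ∫ s, |x s| ∂lam = 1 := by
    rw [← hx, L1.norm_eq_integral_norm]; rfl
  have hny : ∫ s, |y s| ∂lam = 1 := by
    rw [← hy, L1.norm_eq_integral_norm]; rfl
  have hnxy : ∫ s, |x s - y s| ∂lam = ‖x - y‖ := by
    rw [L1.norm_eq_integral_norm]
    apply integral_congr_ae
    filter_upwards [Lp.coeFn_sub x y] with s hs
    rw [hs]; rfl
  let h : ℝ → ℝ := fun s => |x s| - |y s| + |x s - y s|
  have hh : Integrable h lam := (hxa.sub hya).add hxya
  have hhint : ∫ s, h s ∂lam = ‖x - y‖ := by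
    have e1 : ∫ s, h s ∂lam = (∫ s, |x s| ∂lam - ∫ s, |y s| ∂lam) + ∫ s, |x s - y s| ∂lam := by
      show ∫ s, ((|x s| - |y s|) + |x s - y s|) ∂lam = _
      rw [integral_add (f := fun s => |x s| - |y s|) (hxa.sub hya) hxya, integral_sub hxa hya]
    rw [e1, hnx, hny, hnxy]; ring
  obtain ⟨s₀, t₀, -, hE1, hE2⟩ := exists_interval (fun s => |x s|) h hxa hh (fun s => abs_nonneg _)
    hnx N hN
  set E := Ioc s₀ t₀ with hE
  have hEm : MeasurableSet E := measurableSet_Ioc
  have hzi : Integrable (fun s => -(E.indicator x s)) lam := (hxi.indicator hEm).neg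
  let z : Lp ℝ 1 lam := (memLp_one_iff_integrable.mpr hzi).toLp _
  have hz : z =ᵐ[lam] fun s => -(E.indicator x s) := MemLp.coeFn_toLp _
  refine ⟨z, ?_, ?_⟩
  · rw [L1.norm_eq_integral_norm, ← hE1, ← integral_indicator hEm]
    apply integral_congr_ae
    filter_upwards [hz] with s hs
    rw [hs]
    by_cases hsE : s ∈ E <;> simp [hsE]
  · rw [hhint] at hE2
    refine hE2.trans (le_of_eq ?_)
    have e1 : ‖x + z‖ = ∫ s, |x s - E.indicator x s| ∂lam := by
      rw [L1.norm_eq_integral_norm]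
      apply integral_congr_ae
      filter_upwards [hz, Lp.coeFn_add x z] with s hs hs2
      rw [hs2, Pi.add_apply, hs, ← sub_eq_add_neg]; rfl
    have e2 : ‖y + z‖ = ∫ s, |y s - E.indicator x s| ∂lam := by
      rw [L1.norm_eq_integral_norm]
      apply integral_congr_ae
      filter_upwards [hz, Lp.coeFn_add y z] with s hs hs2
      rw [hs2, Pi.add_apply, hs, ← sub_eq_add_neg]; rfl
    have i1 : Integrable (fun s => |x s - E.indicator x s|) lam := (hxi.sub (hxi.indicator hEm)).abs
    have i2 : Integrable (fun s => |y s - E.indicator x s|) lam := (hyi.sub (hxi.indicator hEm)).abs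
    rw [e1, e2, ← integral_sub i2 i1]
    have e3 : ∀ s, |y s - E.indicator x s| - |x s - E.indicator x s|
        = E.indicator h s + (|y s| - |x s|) := by
      intro s
      by_cases hsE : s ∈ E
      · simp only [h, Set.indicator_of_mem hsE, sub_self, abs_zero]
        rw [abs_sub_comm (y s) (x s)]
        ring
      · simp only [Set.indicator_of_notMem hsE, sub_zero]
        ring
    simp only [e3]
    rw [integral_add (g := fun s => |y s| - |x s|) (hh.indicator hEm) (hya.sub hxa),
      integral_sub hya hxa, hnx, hny, sub_self,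
      add_zero, integral_indicator hEm]

end UnifS
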